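import Pool.Agent.H63.T4.Okg
import Pool.Agent.H64.TIU.Law

/-!
# The hypotheses of the tie with side images from heights which are affine on the lines of a family

`ti_ofg`: the structure `TI` of `H64/TIU` for the heights `X` (moving) and `U` (sides), both affine in
the time on the lines. The codes of the sides are the heights at the beginning of the window and the
velocities, in the units `2 ^ (-(gs j))`, `2 ^ (a - gs j)`.
-/

set_option autoImplicit false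

namespace Pool.TIC

open Finset Real
open Pool.Agent.H49.Ent Pool.Agent.H32.Dense Pool.STK Pool.KA Pool.KSAT Pool.K2S Pool.PB Pool.GEN
open Pool.T4E Pool.T4G Pool.TIU64
open Pool.K2S (Pe)

variable {m J : ℕ} {N r : ℕ}

/-- The record: `Kb` (closed at the finer base), the side path, the time. -/
def tG {F : Fam m J} {κ 𝒴 : Type} (a : ℕ) (Kb : F.Ω → κ) (Cy : LnT F → 𝒴) (ω : F.Ω) :
    κ × (𝒴 × ℕ) := (Kb ω, (Cy (slam F a ω), F.T ω))

/-- The codes of the sides: the heights at the beginning of the window and the velocities. -/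
noncomputable def wS {F : Fam m J} (Us Uv : LnT F → Fin r → ℝ) (a : ℕ) (gs : Fin r → ℕ)
    (s : LnT F) : (Fin r → ℤ) × (Fin r → ℤ) := (fun j => ⌊wP Us gs s j⌋, wD Uv a gs s)

/-- The values of the sides from the codes. -/
noncomputable def wV {𝒞 : Type} (M : ℕ) (_ : 𝒞) (c : (Fin r → ℤ) × (Fin r → ℤ)) (τ : ℤ)
    (j : Fin r) : ℤ := c.1 j + ⌊(c.2 j : ℝ) * ((τ : ℝ) / 2 ^ M)⌋

section

variable {F : Fam m J} {a q : ℕ} {g : Fin (N + 1) → ℕ} {gs : Fin r → ℕ}
  {X : F.Ω → Fin (N + 1) → ℝ} {Xs Vs : LnT F → Fin (N + 1) → ℝ} {U : F.Ω → Fin r → ℝ}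
  {Us Uv : LnT F → Fin r → ℝ} {Φ : Type} {Fp : F.Ω → Φ} {z : Φ → Fin (N + 1) → ℤ}
  {W : Φ → Fin r → ℤ}

/-- The sides from the codes. -/
theorem side_ofg {𝒞 : Type} {p : F.Ω → ℝ} (ha : a ≤ J) (hU : AffX p a U Us Uv)
    (hW : ∀ ω, 0 < p ω → ∀ j, |(W (Fp ω) j : ℝ) - 2 ^ gs j * U ω j| ≤ 2) {ω : F.Ω}
    (hω : 0 < p ω) (j : Fin r) (C : 𝒞) :
    |((W (Fp ω) j - wV (J - a) C (wS Us Uv a gs (slam F a ω)) (vtf F a ω) j : ℤ) : ℝ)| ≤ 5 := by
  have h1 := wpos (g := gs) ha hU (k := 2) hW hω j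
  unfold wV wS
  push_cast
  have h2 := Int.floor_le (wP Us gs (slam F a ω) j)
  have h3 := Int.lt_floor_add_one (wP Us gs (slam F a ω) j)
  have h4 := Int.floor_le ((wD Uv a gs (slam F a ω) j : ℝ) * ((vtf F a ω : ℝ) / 2 ^ (J - a)))
  have h5 := Int.lt_floor_add_one
    ((wD Uv a gs (slam F a ω) j : ℝ) * ((vtf F a ω : ℝ) / 2 ^ (J - a)))
  rw [abs_le] at h1 ⊢
  constructor <;> linarith [h1.1, h1.2]

/-- **The hypotheses of the tie with sides** for the heights `X` and the sides `U` over the lines of a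
family. `p`: any law on the samples; `Kb`, `Cy`, `Ka`: the record of the finer base, the side path, the
record of the base `a`; `Y0`: the closed part of the side information. -/
theorem ti_ofg {κ κ' 𝒴 υ : Type} {p : F.Ω → ℝ} (hp : IsLaw p) (ha : a ≤ J)
    (hq : q ≤ J - a) {K : ℕ} (hK : 5 ≤ K) {e h ϖ : ℝ} (he : 0 ≤ e) {Kb : F.Ω → κ'}
    {Cy : LnT F → 𝒴} {Ka : LnT F → κ} {Y0 : Φ → υ}
    -- the heights and the sides
    (hX : AffX p a X Xs Vs) (hU : AffX p a U Us Uv)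
    (hz : ∀ ω, 0 < p ω → ∀ i, |(z (Fp ω) i : ℝ) - 2 ^ g i * X ω i| ≤ 2)
    (hW : ∀ ω, 0 < p ω → ∀ j, |(W (Fp ω) j : ℝ) - 2 ^ gs j * U ω j| ≤ 2)
    -- the record of the finer base determines the one of `a` and the heights
    (hKa : ∀ ω ω', 0 < p ω → 0 < p ω' → Kb ω = Kb ω' → F.T ω = F.T ω' →
      Cy (slam F a ω) = Cy (slam F a ω') → Ka (slam F a ω) = Ka (slam F a ω'))
    (hKz : ∀ ω ω', 0 < p ω → 0 < p ω' → Kb ω = Kb ω' → F.T ω = F.T ω' →
      Cy (slam F a ω) = Cy (slam F a ω') →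
      ∀ i, |2 ^ g i * X ω i - 2 ^ g i * X ω' i| ≤ (K : ℝ) - 4)
    -- the closed part of the side information
    (hY0 : ∀ ω ω', 0 < p ω → 0 < p ω' → vtf F a ω = vtf F a ω' →
      Cy (slam F a ω) = Cy (slam F a ω') → Ka (slam F a ω) = Ka (slam F a ω') →
      Y0 (Fp ω) = Y0 (Fp ω'))
    (full : J * Real.log 2 - e ≤ CH p F.T (fun ω => (F.l ω, F.Z ω)))
    (free : CH p (fun ω => wD Vs a g (slam F a ω)) (fun ω => (wN Vs a g q (slam F a ω),
        vC Cy Ka (slam F a ω))) - e ≤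
      CH p (fun ω => wD Vs a g (slam F a ω)) (fun ω => (tG a Kb Cy ω, wN Vs a g q (slam F a ω))))
    (few : CH p (fun ω => (wS Us Uv a gs (slam F a ω), wN Vs a g q (slam F a ω))) (tG a Kb Cy) ≤
      e)
    (row : ∀ E : F.Ω → Prop, ϖ ≤ Pe p E → 0 < Pe p E → CH (cond p E True) (fun ω => z (Fp ω))
      (fun ω => ((fun l => z (Fp ω) l / 2 ^ q), (Y0 (Fp ω), W (Fp ω)))) ≤
        ((N : ℝ) + 1 - h) * q * Real.log 2 + e) :
    TI p (slam F a) (vt F a q) (vtf F a) (tG a Kb Cy) (wD Vs a g) (wP Xs g) (vC Cy Ka)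
      (wS Us Uv a gs) (wV (J - a)) Fp z Y0 W q (J - a) K e h ϖ where
  law := hp
  e0 := he
  mM := hq
  tb := fun ω _ => by
    have h1 : (0 : ℤ) ≤ vt F a q ω := Int.natCast_nonneg _
    rw [abs_of_nonneg h1]
    unfold vt
    have h2 : F.T ω % 2 ^ (J - a) / 2 ^ (J - a - q) ≤ 2 ^ q := by
      refine Nat.div_le_of_le_mul ?_
      rw [← pow_add, Nat.sub_add_cancel hq]
      exact (Nat.mod_lt _ (by positivity)).le
    exact_mod_cast h2
  tfb := fun ω _ => by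
    rw [abs_of_nonneg (vtf_nonneg ω)]
    exact (vtf_lt ω).le
  tt := fun ω _ => vt_near hq ω
  pos := fun ω hω i => (wpos ha hX hz hω i).trans (by
    have : (5 : ℝ) ≤ K := by exact_mod_cast hK
    linarith)
  GC := fun ω ω' hω hω' h => by
    obtain ⟨h1, h2⟩ := Prod.ext_iff.1 h
    obtain ⟨h3, h4⟩ := Prod.ext_iff.1 h2
    exact Prod.ext h3 (hKa ω ω' hω hω' h1 h4 h3)
  Gt := fun ω ω' _ _ h => by
    have h5 : F.T ω = F.T ω' := (Prod.ext_iff.1 (Prod.ext_iff.1 h).2).2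
    unfold vt vtf
    rw [h5]
    exact ⟨rfl, rfl⟩
  Gz := fun ω ω' hω hω' h i => by
    obtain ⟨h1, h2⟩ := Prod.ext_iff.1 h
    obtain ⟨h3, h4⟩ := Prod.ext_iff.1 h2
    have e1 := hKz ω ω' hω hω' h1 h4 h3 i
    have e2 := hz ω hω i
    have e3 := hz ω' hω' i
    rw [abs_le] at e1 e2 e3 ⊢
    constructor <;> linarith [e1.1, e1.2, e2.1, e2.2, e3.1, e3.2]
  Yt := fun ω ω' hω hω' h1 h2 => hY0 ω ω' hω hω' h1 (Prod.ext_iff.1 h2).1 (Prod.ext_iff.1 h2).2
  side := fun ω hω j => by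
    have h1 := side_ofg (gs := gs) ha hU hW hω j (vC Cy Ka (slam F a ω))
    have h2 : (5 : ℝ) ≤ K := by exact_mod_cast hK
    have h3 := h1.trans h2
    exact_mod_cast h3
  full := by
    have e1 : CH p (vtf F a) (slam F a) = CH p (fun ω => F.T ω % 2 ^ (J - a)) (slam F a) := by
      refine CH_congr hp.nonneg ?_ ?_ (fun _ _ _ _ h => h) (fun _ _ _ _ h => h)
      · intro ω ω' _ _ h
        have h1 : vtf F a ω = vtf F a ω' := (Prod.ext_iff.1 h).1
        unfold vtf at h1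
        exact Int.ofNat_inj.1 h1
      · intro ω ω' _ _ h
        have h1 : F.T ω % 2 ^ (J - a) = F.T ω' % 2 ^ (J - a) := (Prod.ext_iff.1 h).1
        show vtf F a ω = vtf F a ω'
        unfold vtf
        rw [h1]
    rw [e1, Nat.cast_sub ha]
    exact full_evt hp ha full
  free := free
  few := few
  row := row

end

end Pool.TIC
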